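import Mathlib
import Pool.Agent.Lib.MP_130e73_co.Defs
import Pool.Agent.Lib.MP_130e73_co.Derived

set_option autoImplicit false

namespace Pool.Agent.Results.MP_130e73_co.NotDense

open Pool.Agent.Lib.MP_130e73_co

/-- Neither the real domination roots of paths nor those of cycles are dense in `[-2,0]`:
in both cases some nondegenerate closed subinterval of `[-2,0]` contains no root at all.
More precisely, in both cases the set of accumulation points in the real line of the set of
real roots is exactly `[-1,0]`. -/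
theorem result :
    (∃ a b : ℝ, -2 ≤ a ∧ a < b ∧ b ≤ 0 ∧ ∀ r ∈ Set.Icc a b, r ∉ RP) ∧
    (∃ a b : ℝ, -2 ≤ a ∧ a < b ∧ b ≤ 0 ∧ ∀ r ∈ Set.Icc a b, r ∉ RC) ∧
    derivedSet RP = Set.Icc (-1 : ℝ) 0 ∧
    derivedSet RC = Set.Icc (-1 : ℝ) 0 :=
  ⟨gap_of_derived RP derived_RP, gap_of_derived RC derived_RC, derived_RP, derived_RC⟩

end Pool.Agent.Results.MP_130e73_co.NotDense
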